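import Pool.Agent.H947R3.GM.Sim

/-!
# Prime pairs with difference `d` in all reduced residue classes modulo a divisor `q` of `d`

`Good q F k`: for all `r` in `F` and all `a` coprime to `q` there are infinitely many primes
`p ≡ a (mod q)` such that `p` and `p + q * (k * r)` are consecutive primes.
-/

namespace Pool.Agent.Results.MP_92ef0c_nt.PairsInAllClasses

open Pool.Agent.H672R3.Sim Pool.Agent.H947R3.GM

/-- for all `r` in `F` and all `a` coprime to `q` there are infinitely many pairs of consecutive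
primes `p ≡ a (mod q)` and `p + q * (k * r)` -/
def Good (q : ℕ) (F : Finset ℕ) (k : ℕ) : Prop :=
  ∀ r ∈ F, ∀ a : ℕ, Nat.Coprime a q → {n : ℕ | Nat.nth Nat.Prime n ≡ a [MOD q] ∧
    Nat.nth Nat.Prime (n + 1) = Nat.nth Nat.Prime n + q * (k * r)}.Infinite

theorem result (q : ℕ) (hq : 0 < q) (F : Finset ℕ) (hF : 0 ∉ F) :
    ∃ C : ℕ,
      -- every set of `C` integers has two elements whose distance is good
      (∀ S : Finset ℤ, C ≤ S.card → ∃ x ∈ S, ∃ y ∈ S, x ≠ y ∧ Good q F (x - y).natAbs) ∧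
      -- every infinite set has an infinite subset all of whose distances are good
      (∀ X : Set ℤ, X.Infinite → ∃ Y : Set ℤ, Y ⊆ X ∧ Y.Infinite ∧
        ∀ x ∈ Y, ∀ y ∈ Y, x ≠ y → Good q F (x - y).natAbs) ∧
      -- the good numbers are multiplicatively syndetic
      (∀ m : ℕ, 1 ≤ m → ∃ k : ℕ, 1 ≤ k ∧ k ≤ C ∧ Good q F (k * m)) ∧
      -- the good numbers are syndetic
      (∀ x : ℕ, ∃ k : ℕ, x < k ∧ k ≤ x + C ∧ Good q F k) := by
  classical
  obtain ⟨C₁, h₁⟩ := delta_all hq F hF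
  have h : DeltaStar (Good q F) C₁ := by
    intro S hS
    obtain ⟨x, hx, y, hy, hxy, hg⟩ := h₁ S hS
    exact ⟨x, hx, y, hy, hxy, fun r hr a ha => nth_sub (hg r hr a ha)⟩
  obtain ⟨L, hL⟩ := add_synd h
  refine ⟨max C₁ L, fun S hS => h S ((le_max_left _ _).trans hS), fun X hX => ?_,
    fun m hm => ?_, fun x => ?_⟩
  · have : Infinite X := hX.to_subtype
    obtain ⟨Y, hY, hYg⟩ := sim_inf h 1 X (fun _ x => (x : ℤ))
      (fun _ => Subtype.val_injective)
    refine ⟨Subtype.val '' Y, ?_, hY.image Subtype.val_injective.injOn, ?_⟩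
    · rintro _ ⟨x, _, rfl⟩
      exact x.2
    · rintro _ ⟨x, hx, rfl⟩ _ ⟨y, hy, rfl⟩ hxy
      exact hYg x hx y hy (fun h => hxy (by rw [h])) 0
  · obtain ⟨k, hk1, hk2, hk⟩ := mult_synd h m hm
    exact ⟨k, hk1, hk2.trans (le_max_left _ _), hk⟩
  · obtain ⟨k, hk1, hk2, hk⟩ := hL x
    exact ⟨k, hk1, hk2.trans (Nat.add_le_add_left (le_max_right _ _) x), hk⟩

end Pool.Agent.Results.MP_92ef0c_nt.PairsInAllClasses
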